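import Mathlib

/-!
# A tridiagonal pair with an admissible map that is not diagonalizable
-/

open Module

namespace Pool.Agent.Results.MP_6ebba1_al.NotDiagonalizable

/-- `A` is diagonalizable, `θ 0, …, θ d` is an ordering of its eigenvalues, and
`B V_i ⊆ V_{i-1} + V_i + V_{i+1}`, where `V_i` is the eigenspace of `A` for `θ i`. -/
structure IsSide {K V : Type} [Field K] [AddCommGroup V] [Module K V] (A B : Module.End K V)
    (d : ℕ) (θ : Fin (d + 1) → K) : Prop where
  inj : Function.Injective θ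
  eig : ∀ μ, A.HasEigenvalue μ ↔ ∃ i, θ i = μ
  diag : ⨆ μ, A.eigenspace μ = ⊤
  trid : ∀ i, ∀ v ∈ A.eigenspace (θ i),
    B v ∈ ⨆ j, ⨆ (_ : j.1 ≤ i.1 + 1 ∧ i.1 ≤ j.1 + 1), A.eigenspace (θ j)

/-- A tridiagonal pair with orderings of the eigenvalues. -/
structure IsTDPair {K V : Type} [Field K] [AddCommGroup V] [Module K V] (A B : Module.End K V)
    (d : ℕ) (θ θs : Fin (d + 1) → K) : Prop where
  left : IsSide A B d θ
  right : IsSide B A d θs
  irred : ∀ W : Submodule K V, (∀ v ∈ W, A v ∈ W) → (∀ v ∈ W, B v ∈ W) → W = ⊥ ∨ W = ⊤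

/-- Admissible maps: `S V_i = V_i` and
`S (V*_0 + ⋯ + V*_i) = V*_d + ⋯ + V*_{d-i}` for all `i`. -/
def Admissible {K V : Type} [Field K] [AddCommGroup V] [Module K V] (A B : Module.End K V)
    (d : ℕ) (θ θs : Fin (d + 1) → K) (S : Module.End K V) : Prop :=
  (∀ i, (A.eigenspace (θ i)).map S = A.eigenspace (θ i)) ∧
    ∀ i : Fin (d + 1), (⨆ j, ⨆ (_ : j.1 ≤ i.1), B.eigenspace (θs j)).map S =
      ⨆ j, ⨆ (_ : d ≤ i.1 + j.1), B.eigenspace (θs j)

/-- The map `A`. -/
def mA : Module.End ℚ (Fin 4 → ℚ) where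
  toFun v := ![v 0, 0, 0, -v 3]
  map_add' v w := by ext i; fin_cases i <;> simp <;> ring
  map_smul' c v := by ext i; fin_cases i <;> simp

/-- The map `A*`. -/
def mB : Module.End ℚ (Fin 4 → ℚ) where
  toFun v := ![5 * v 0 - 2 * v 1 + 3 * v 2, 8 * v 0 - 5 * v 1 + 3 * v 3,
    3 * v 0 + 5 * v 2 - 2 * v 3, 3 * v 1 + 8 * v 2 - 5 * v 3]
  map_add' v w := by ext i; fin_cases i <;> simp <;> ring
  map_smul' c v := by ext i; fin_cases i <;> simp <;> ring

/-- The map `S`. -/
def mS : Module.End ℚ (Fin 4 → ℚ) where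
  toFun v := ![v 0, -16 * v 1 + 20 * v 2, -5 * v 1 + 4 * v 2, -4 * v 3]
  map_add' v w := by ext i; fin_cases i <;> simp <;> ring
  map_smul' c v := by ext i; fin_cases i <;> simp <;> ring

/-- The inverse of `S`. -/
def mT (v : Fin 4 → ℚ) : Fin 4 → ℚ :=
  ![v 0, (4 * v 1 - 20 * v 2) / 36, (5 * v 1 - 16 * v 2) / 36, -v 3 / 4]

lemma mA_apply (v : Fin 4 → ℚ) : mA v = ![v 0, 0, 0, -v 3] := rfl

lemma mB_apply (v : Fin 4 → ℚ) : mB v = ![5 * v 0 - 2 * v 1 + 3 * v 2, 8 * v 0 - 5 * v 1 + 3 * v 3,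
    3 * v 0 + 5 * v 2 - 2 * v 3, 3 * v 1 + 8 * v 2 - 5 * v 3] := rfl

lemma mS_apply (v : Fin 4 → ℚ) :
    mS v = ![v 0, -16 * v 1 + 20 * v 2, -5 * v 1 + 4 * v 2, -4 * v 3] := rfl

lemma mS_mT (v : Fin 4 → ℚ) : mS (mT v) = v := by
  rw [mS_apply, mT]
  ext i; fin_cases i <;> simp <;> ring

lemma ext4 {v w : Fin 4 → ℚ} (h0 : v 0 = w 0) (h1 : v 1 = w 1) (h2 : v 2 = w 2)
    (h3 : v 3 = w 3) : v = w := by
  ext i
  fin_cases i
  · exact h0
  · exact h1
  · exact h2
  · exact h3

lemma memA (v : Fin 4 → ℚ) (μ : ℚ) : v ∈ mA.eigenspace μ ↔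
    v 0 = μ * v 0 ∧ 0 = μ * v 1 ∧ 0 = μ * v 2 ∧ -v 3 = μ * v 3 := by
  rw [Module.End.mem_eigenspace_iff, mA_apply]
  constructor
  · intro h
    exact ⟨congrFun h 0, congrFun h 1, congrFun h 2, congrFun h 3⟩
  · rintro ⟨h0, h1, h2, h3⟩
    exact ext4 h0 h1 h2 h3

lemma memB (v : Fin 4 → ℚ) (μ : ℚ) : v ∈ mB.eigenspace μ ↔
    5 * v 0 - 2 * v 1 + 3 * v 2 = μ * v 0 ∧ 8 * v 0 - 5 * v 1 + 3 * v 3 = μ * v 1 ∧
    3 * v 0 + 5 * v 2 - 2 * v 3 = μ * v 2 ∧ 3 * v 1 + 8 * v 2 - 5 * v 3 = μ * v 3 := by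
  rw [Module.End.mem_eigenspace_iff, mB_apply]
  constructor
  · intro h
    exact ⟨congrFun h 0, congrFun h 1, congrFun h 2, congrFun h 3⟩
  · rintro ⟨h0, h1, h2, h3⟩
    exact ext4 h0 h1 h2 h3

/-- The eigenvalues of `mA`. -/
def th : Fin (2 + 1) → ℚ := ![1, 0, -1]

/-- The eigenvalues of `mB`. -/
def ths : Fin (2 + 1) → ℚ := ![6, 0, -6]

/-- decomposition with respect to `mA` -/
lemma decA (v : Fin 4 → ℚ) : ∃ a b c : Fin 4 → ℚ, a ∈ mA.eigenspace 1 ∧
    b ∈ mA.eigenspace 0 ∧ c ∈ mA.eigenspace (-1) ∧ v = a + b + c ∧ (v 0 = 0 → a = 0) ∧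
      (v 3 = 0 → c = 0) := by
  refine ⟨![v 0, 0, 0, 0], ![0, v 1, v 2, 0], ![0, 0, 0, v 3], ?_, ?_, ?_, ?_, ?_, ?_⟩
  · rw [memA]; simp
  · rw [memA]; simp
  · rw [memA]; simp
  · ext i; fin_cases i <;> simp
  · intro h
    ext i; fin_cases i <;> simp [h]
  · intro h
    ext i; fin_cases i <;> simp [h]

/-- decomposition with respect to `mB` -/
lemma decB (v : Fin 4 → ℚ) : ∃ a b c : Fin 4 → ℚ, a ∈ mB.eigenspace 6 ∧
    b ∈ mB.eigenspace 0 ∧ c ∈ mB.eigenspace (-6) ∧ v = a + b + c ∧
      (4 * v 0 - v 1 + 4 * v 2 - v 3 = 0 → a = 0) ∧ (v 0 - v 1 - v 2 + v 3 = 0 → c = 0) := by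
  obtain ⟨s, hs⟩ : ∃ s, s = (4 * v 0 - v 1 + 4 * v 2 - v 3) / 6 := ⟨_, rfl⟩
  obtain ⟨t, ht⟩ : ∃ t, t = -(v 0 - v 1 - v 2 + v 3) / 6 := ⟨_, rfl⟩
  refine ⟨![s, s, s, s], ![v 0 - s - t, v 1 - s - 4 * t, v 2 - s + t, v 3 - s + 4 * t],
    ![t, 4 * t, -t, -4 * t], ?_, ?_, ?_, ?_, ?_, ?_⟩
  · rw [memB]; simp; ring_nf; simp
  · rw [memB]; simp
    refine ⟨?_, ?_, ?_, ?_⟩ <;> · rw [hs, ht]; ring
  · rw [memB]; simp; ring_nf; simp
  · ext i; fin_cases i <;> simp <;> ring
  · intro h
    rw [h] at hs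
    have : s = 0 := by rw [hs]; simp
    ext i; fin_cases i <;> simp [this]
  · intro h
    rw [h] at ht
    have : t = 0 := by rw [ht]; simp
    ext i; fin_cases i <;> simp [this]

lemma irr (W : Submodule ℚ (Fin 4 → ℚ)) (hA : ∀ v ∈ W, mA v ∈ W) (hB : ∀ v ∈ W, mB v ∈ W) :
    W = ⊥ ∨ W = ⊤ := by
  by_cases h : ∀ v ∈ W, v 0 = 0
  · left
    rw [eq_bot_iff]
    intro w hw
    have h2 : ∀ v ∈ W, 3 * v 2 = 2 * v 1 := by
      intro v hv
      have := h _ (hB v hv)
      rw [mB_apply] at this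
      have h0 := h v hv
      simp [h0] at this
      linarith
    have h3 : ∀ v ∈ W, 3 * v 3 = 5 * v 1 := by
      intro v hv
      have h5 := h2 _ (hB v hv)
      rw [mB_apply] at h5
      have h0 := h v hv
      have h6 := h2 v hv
      simp [h0] at h5
      linarith
    have z3 : w 3 = 0 := by
      have := h3 _ (hA w hw)
      rw [mA_apply] at this
      simpa using this
    have z1 : w 1 = 0 := by linarith [h3 w hw]
    have z2 : w 2 = 0 := by linarith [h2 w hw]
    rw [Submodule.mem_bot]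
    exact ext4 (h w hw) z1 z2 z3
  · right
    push Not at h
    obtain ⟨w, hw, hw0⟩ := h
    have e0 : (![1, 0, 0, 0] : Fin 4 → ℚ) ∈ W := by
      have hu : mA (mA w) + mA w ∈ W := W.add_mem (hA _ (hA _ hw)) (hA _ hw)
      have := W.smul_mem (1 / (2 * w 0)) hu
      convert this using 1
      simp only [mA_apply]
      ext i
      fin_cases i
      · simp
        field_simp
        ring
      · simp
      · simp
      · simp
    have u : (![0, 8, 3, 0] : Fin 4 → ℚ) ∈ W := by
      have := W.sub_mem (hB _ e0) (W.smul_mem 5 e0)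
      convert this using 1
      rw [mB_apply]
      ext i; fin_cases i <;> simp
    have hMu := hB _ u
    have e3 : (![0, 0, 0, 1] : Fin 4 → ℚ) ∈ W := by
      have hu : mA (mA (mB ![0, 8, 3, 0])) - mA (mB ![0, 8, 3, 0]) ∈ W :=
        W.sub_mem (hA _ (hA _ hMu)) (hA _ hMu)
      have := W.smul_mem (1 / 96) hu
      convert this using 1
      simp only [mA_apply, mB_apply]
      ext i; fin_cases i <;> simp <;> norm_num
    have u2 : (![0, -40, 15, 0] : Fin 4 → ℚ) ∈ W := by
      have := W.sub_mem (W.add_mem hMu (W.smul_mem 7 e0)) (W.smul_mem 48 e3)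
      convert this using 1
      rw [mB_apply]
      ext i; fin_cases i <;> simp <;> norm_num
    have e1 : (![0, 1, 0, 0] : Fin 4 → ℚ) ∈ W := by
      have := W.smul_mem (1 / 80) (W.sub_mem (W.smul_mem 5 u) u2)
      convert this using 1
      ext i; fin_cases i <;> simp <;> norm_num
    have e2 : (![0, 0, 1, 0] : Fin 4 → ℚ) ∈ W := by
      have := W.smul_mem (1 / 3) (W.sub_mem u (W.smul_mem 8 e1))
      convert this using 1
      ext i; fin_cases i <;> simp
    rw [eq_top_iff]
    intro v _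
    have := W.add_mem (W.add_mem (W.add_mem (W.smul_mem (v 0) e0)
      (W.smul_mem (v 1) e1)) (W.smul_mem (v 2) e2)) (W.smul_mem (v 3) e3)
    convert this using 1
    ext i; fin_cases i <;> simp

lemma sideA : IsSide mA mB 2 th where
  inj := by
    intro i j h
    fin_cases i <;> fin_cases j <;> simp_all [th] <;> norm_num at h
  eig := by
    intro μ
    constructor
    · intro h
      obtain ⟨v, hv, hv0⟩ := h.exists_hasEigenvector
      rw [memA] at hv
      obtain ⟨h0, h1, h2, h3⟩ := hv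
      by_contra hne
      push Not at hne
      have n0 : μ ≠ 1 := fun h => hne 0 (by simp [th, h])
      have n1 : μ ≠ 0 := fun h => hne 1 (by simp [th, h])
      have n2 : μ ≠ -1 := fun h => hne 2 (by simp [th, h])
      apply hv0
      have z0 : v 0 = 0 := by
        have : (μ - 1) * v 0 = 0 := by linarith
        rcases mul_eq_zero.1 this with h | h
        · exact absurd (by linarith) n0
        · exact h
      have z3 : v 3 = 0 := by
        have : (μ + 1) * v 3 = 0 := by linarith
        rcases mul_eq_zero.1 this with h | h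
        · exact absurd (by linarith) n2
        · exact h
      exact ext4 z0 ((mul_eq_zero.1 h1.symm).resolve_left n1)
        ((mul_eq_zero.1 h2.symm).resolve_left n1) z3
    · rintro ⟨i, rfl⟩
      fin_cases i
      · refine Module.End.hasEigenvalue_of_hasEigenvector (x := ![1, 0, 0, 0]) ⟨?_, ?_⟩
        · rw [memA]; simp [th]
        · intro h
          have := congrFun h 0
          simp at this
      · refine Module.End.hasEigenvalue_of_hasEigenvector (x := ![0, 1, 0, 0]) ⟨?_, ?_⟩
        · rw [memA]; simp [th]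
        · intro h
          have := congrFun h 1
          simp at this
      · refine Module.End.hasEigenvalue_of_hasEigenvector (x := ![0, 0, 0, 1]) ⟨?_, ?_⟩
        · rw [memA]; simp [th]
        · intro h
          have := congrFun h 3
          simp at this
  diag := by
    rw [eq_top_iff]
    intro v _
    obtain ⟨a, b, c, ha, hb, hc, rfl, _⟩ := decA v
    refine add_mem (add_mem ?_ ?_) ?_
    · exact (le_iSup (fun μ => mA.eigenspace μ) 1) ha
    · exact (le_iSup (fun μ => mA.eigenspace μ) 0) hb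
    · exact (le_iSup (fun μ => mA.eigenspace μ) (-1)) hc
  trid := by
    intro i v hv
    obtain ⟨a, b, c, ha, hb, hc, he, hz0, hz3⟩ := decA (mB v)
    have key : ∀ (j : Fin (2 + 1)), (j.1 ≤ i.1 + 1 ∧ i.1 ≤ j.1 + 1) →
        ∀ x ∈ mA.eigenspace (th j),
        x ∈ ⨆ j, ⨆ (_ : j.1 ≤ i.1 + 1 ∧ i.1 ≤ j.1 + 1), mA.eigenspace (th j) := by
      intro j hj x hx
      exact (le_iSup_of_le j (le_iSup_of_le hj le_rfl) : mA.eigenspace (th j) ≤
        ⨆ j, ⨆ (_ : j.1 ≤ i.1 + 1 ∧ i.1 ≤ j.1 + 1), mA.eigenspace (th j)) hx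
    rw [he]
    rw [memA] at hv
    obtain ⟨h0, h1, h2, h3⟩ := hv
    refine add_mem (add_mem ?_ ?_) ?_
    · by_cases hi : i.1 ≤ 1
      · exact key 0 ⟨by simp, by simpa using hi⟩ a (by simpa [th] using ha)
      · have hi2 : i = 2 := by
          ext; have := i.2; show i.1 = 2; omega
        subst hi2
        simp [th] at h0 h1 h2 h3
        rw [hz0 (by rw [mB_apply]; simp; linarith)]
        exact zero_mem _
    · exact key 1 ⟨by simp, by have := i.2; show i.1 ≤ 2; omega⟩ b (by simpa [th] using hb)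
    · by_cases hi : 1 ≤ i.1
      · refine key 2 ⟨?_, ?_⟩ c (by simpa [th] using hc)
        · show 2 ≤ i.1 + 1; omega
        · have := i.2; show i.1 ≤ 3; omega
      · have hi2 : i = 0 := by
          ext; show i.1 = 0; omega
        subst hi2
        simp [th] at h0 h1 h2 h3
        rw [hz3 (by rw [mB_apply]; simp; linarith)]
        exact zero_mem _

lemma sideB : IsSide mB mA 2 ths where
  inj := by
    intro i j h
    fin_cases i <;> fin_cases j <;> simp_all [ths] <;> norm_num at h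
  eig := by
    intro μ
    constructor
    · intro h
      obtain ⟨v, hv, hv0⟩ := h.exists_hasEigenvector
      rw [memB] at hv
      obtain ⟨h0, h1, h2, h3⟩ := hv
      by_contra hne
      push Not at hne
      have n0 : μ ≠ 6 := fun h => hne 0 (by simp [ths, h])
      have n1 : μ ≠ 0 := fun h => hne 1 (by simp [ths, h])
      have n2 : μ ≠ -6 := fun h => hne 2 (by simp [ths, h])
      apply hv0
      have s1 : 4 * v 0 - v 1 + 4 * v 2 - v 3 = 0 := by
        have : (μ - 6) * (4 * v 0 - v 1 + 4 * v 2 - v 3) = 0 := by linarith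
        rcases mul_eq_zero.1 this with h | h
        · exact absurd (by linarith) n0
        · exact h
      have s2 : v 0 - v 1 - v 2 + v 3 = 0 := by
        have : (μ + 6) * (v 0 - v 1 - v 2 + v 3) = 0 := by linarith
        rcases mul_eq_zero.1 this with h | h
        · exact absurd (by linarith) n2
        · exact h
      have hk : ∀ x, 0 = μ * x → x = 0 := fun x hx => (mul_eq_zero.1 hx.symm).resolve_left n1
      refine ext4 (hk _ ?_) (hk _ ?_) (hk _ ?_) (hk _ ?_)
      · linarith
      · linarith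
      · linarith
      · linarith
    · rintro ⟨i, rfl⟩
      fin_cases i
      · refine Module.End.hasEigenvalue_of_hasEigenvector (x := ![1, 1, 1, 1]) ⟨?_, ?_⟩
        · rw [memB]; simp [ths]; norm_num
        · intro h
          have := congrFun h 0
          simp at this
      · refine Module.End.hasEigenvalue_of_hasEigenvector (x := ![1, 1, -1, -1]) ⟨?_, ?_⟩
        · rw [memB]; simp [ths]; norm_num
        · intro h
          have := congrFun h 1
          simp at this
      · refine Module.End.hasEigenvalue_of_hasEigenvector (x := ![1, 4, -1, -4]) ⟨?_, ?_⟩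
        · rw [memB]; simp [ths]; norm_num
        · intro h
          have := congrFun h 0
          simp at this
  diag := by
    rw [eq_top_iff]
    intro v _
    obtain ⟨a, b, c, ha, hb, hc, rfl, _⟩ := decB v
    refine add_mem (add_mem ?_ ?_) ?_
    · exact (le_iSup (fun μ => mB.eigenspace μ) 6) ha
    · exact (le_iSup (fun μ => mB.eigenspace μ) 0) hb
    · exact (le_iSup (fun μ => mB.eigenspace μ) (-6)) hc
  trid := by
    intro i v hv
    obtain ⟨a, b, c, ha, hb, hc, he, hz0, hz3⟩ := decB (mA v)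
    have key : ∀ (j : Fin (2 + 1)), (j.1 ≤ i.1 + 1 ∧ i.1 ≤ j.1 + 1) →
        ∀ x ∈ mB.eigenspace (ths j),
        x ∈ ⨆ j, ⨆ (_ : j.1 ≤ i.1 + 1 ∧ i.1 ≤ j.1 + 1), mB.eigenspace (ths j) := by
      intro j hj x hx
      exact (le_iSup_of_le j (le_iSup_of_le hj le_rfl) : mB.eigenspace (ths j) ≤
        ⨆ j, ⨆ (_ : j.1 ≤ i.1 + 1 ∧ i.1 ≤ j.1 + 1), mB.eigenspace (ths j)) hx
    rw [he]
    rw [memB] at hv
    obtain ⟨h0, h1, h2, h3⟩ := hv
    refine add_mem (add_mem ?_ ?_) ?_
    · by_cases hi : i.1 ≤ 1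
      · exact key 0 ⟨by simp, by simpa using hi⟩ a (by simpa [ths] using ha)
      · have hi2 : i = 2 := by
          ext; have := i.2; show i.1 = 2; omega
        subst hi2
        simp [ths] at h0 h1 h2 h3
        rw [hz0 (by rw [mA_apply]; simp; linarith)]
        exact zero_mem _
    · exact key 1 ⟨by simp, by have := i.2; show i.1 ≤ 2; omega⟩ b (by simpa [ths] using hb)
    · by_cases hi : 1 ≤ i.1
      · refine key 2 ⟨?_, ?_⟩ c (by simpa [ths] using hc)
        · show 2 ≤ i.1 + 1; omega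
        · have := i.2; show i.1 ≤ 3; omega
      · have hi2 : i = 0 := by
          ext; show i.1 = 0; omega
        subst hi2
        simp [ths] at h0 h1 h2 h3
        rw [hz3 (by rw [mA_apply]; simp; linarith)]
        exact zero_mem _

lemma adm : Admissible mA mB 2 th ths mS := by
  constructor
  · intro i
    apply le_antisymm
    · rintro _ ⟨v, hv, rfl⟩
      have hv' := (memA v _).1 hv
      obtain ⟨h0, h1, h2, h3⟩ := hv'
      rw [memA, mS_apply]
      simp
      refine ⟨?_, ?_, ?_, ?_⟩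
      · exact h0
      · rcases mul_eq_zero.1 h1.symm with h | h
        · exact Or.inl h
        · rcases mul_eq_zero.1 h2.symm with h' | h'
          · exact Or.inl h'
          · right; rw [h, h']; ring
      · rcases mul_eq_zero.1 h1.symm with h | h
        · exact Or.inl h
        · rcases mul_eq_zero.1 h2.symm with h' | h'
          · exact Or.inl h'
          · right; rw [h, h']; ring
      · linarith
    · intro v hv
      refine ⟨mT v, ?_, mS_mT v⟩
      have hv' := (memA v _).1 hv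
      obtain ⟨h0, h1, h2, h3⟩ := hv'
      show mT v ∈ mA.eigenspace (th i)
      rw [memA, mT]
      simp
      refine ⟨?_, ?_, ?_, ?_⟩
      · exact h0
      · rcases mul_eq_zero.1 h1.symm with h | h
        · exact Or.inl h
        · rcases mul_eq_zero.1 h2.symm with h' | h'
          · exact Or.inl h'
          · right; rw [h, h']; ring
      · rcases mul_eq_zero.1 h1.symm with h | h
        · exact Or.inl h
        · rcases mul_eq_zero.1 h2.symm with h' | h'
          · exact Or.inl h'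
          · right; rw [h, h']; ring
      · linarith
  · have key1 : ∀ (i j : Fin (2 + 1)), j.1 ≤ i.1 → ∀ x ∈ mB.eigenspace (ths j),
        x ∈ ⨆ j, ⨆ (_ : j.1 ≤ i.1), mB.eigenspace (ths j) := by
      intro i j hj x hx
      exact (le_iSup_of_le j (le_iSup_of_le hj le_rfl) : mB.eigenspace (ths j) ≤
        ⨆ j, ⨆ (_ : j.1 ≤ i.1), mB.eigenspace (ths j)) hx
    have key2 : ∀ (i j : Fin (2 + 1)), 2 ≤ i.1 + j.1 → ∀ x ∈ mB.eigenspace (ths j),
        x ∈ ⨆ j, ⨆ (_ : 2 ≤ i.1 + j.1), mB.eigenspace (ths j) := by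
      intro i j hj x hx
      exact (le_iSup_of_le j (le_iSup_of_le hj le_rfl) : mB.eigenspace (ths j) ≤
        ⨆ j, ⨆ (_ : 2 ≤ i.1 + j.1), mB.eigenspace (ths j)) hx
    intro i
    apply le_antisymm
    · rw [Submodule.map_le_iff_le_comap]
      refine iSup_le fun j => iSup_le fun hj => ?_
      intro v hv
      rw [memB] at hv
      obtain ⟨h0, h1, h2, h3⟩ := hv
      rw [Submodule.mem_comap]
      obtain ⟨a, b, c, ha, hb, hc, he, hz0, hz3⟩ := decB (mS v)
      by_cases hj0 : j.1 = 0
      · have hj0' : j = 0 := by ext; exact hj0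
        subst hj0'
        simp [ths] at h0 h1 h2 h3
        refine key2 i 2 (by show 2 ≤ i.1 + 2; omega) _ ?_
        rw [memB, mS_apply]
        simp [ths]
        refine ⟨?_, ?_, ?_, ?_⟩ <;> linarith
      · by_cases hj1 : j.1 = 1
        · have hj1' : j = 1 := by ext; exact hj1
          subst hj1'
          simp [ths] at h0 h1 h2 h3
          have hi : 1 ≤ i.1 := hj
          rw [he, hz0 (by rw [mS_apply]; simp; linarith), zero_add]
          refine add_mem ?_ ?_
          · exact key2 i 1 (by show 2 ≤ i.1 + 1; omega) _ (by simpa [ths] using hb)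
          · exact key2 i 2 (by show 2 ≤ i.1 + 2; omega) _ (by simpa [ths] using hc)
        · have hi : 2 ≤ i.1 := by omega
          rw [he]
          refine add_mem (add_mem ?_ ?_) ?_
          · exact key2 i 0 (by show 2 ≤ i.1 + 0; omega) _ (by simpa [ths] using ha)
          · exact key2 i 1 (by show 2 ≤ i.1 + 1; omega) _ (by simpa [ths] using hb)
          · exact key2 i 2 (by show 2 ≤ i.1 + 2; omega) _ (by simpa [ths] using hc)
    · apply iSup_le
      intro j
      apply iSup_le
      intro hj v hv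
      rw [memB] at hv
      obtain ⟨h0, h1, h2, h3⟩ := hv
      suffices hT : mT v ∈ ⨆ j, ⨆ (_ : j.1 ≤ i.1), mB.eigenspace (ths j) from
        ⟨mT v, hT, mS_mT v⟩
      obtain ⟨a, b, c, ha, hb, hc, he, hz0, hz3⟩ := decB (mT v)
      by_cases hj0 : j.1 = 2
      · have hj0' : j = 2 := by ext; exact hj0
        subst hj0'
        simp [ths] at h0 h1 h2 h3
        refine key1 i 0 (by simp) _ ?_
        rw [memB, mT]
        simp [ths]
        refine ⟨?_, ?_, ?_, ?_⟩ <;> linarith
      · by_cases hj1 : j.1 = 1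
        · have hj1' : j = 1 := by ext; exact hj1
          subst hj1'
          simp [ths] at h0 h1 h2 h3
          have hi : 1 ≤ i.1 := by omega
          rw [he, hz3 (by rw [mT]; simp; linarith), add_zero]
          refine add_mem ?_ ?_
          · exact key1 i 0 (by simp) _ (by simpa [ths] using ha)
          · exact key1 i 1 (by simpa using hi) _ (by simpa [ths] using hb)
        · have hj2 := j.2
          have hi : 2 ≤ i.1 := by omega
          rw [he]
          refine add_mem (add_mem ?_ ?_) ?_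
          · exact key1 i 0 (by simp) _ (by simpa [ths] using ha)
          · exact key1 i 1 (by show 1 ≤ i.1; omega) _ (by simpa [ths] using hb)
          · exact key1 i 2 (by show 2 ≤ i.1; omega) _ (by simpa [ths] using hc)

lemma not_diag : ⨆ μ, mS.eigenspace μ ≠ ⊤ := by
  intro h
  let P : Submodule ℚ (Fin 4 → ℚ) :=
    { carrier := {v | v 1 = 2 * v 2}
      add_mem' := by
        intro v w hv hw
        have hv' : v 1 = 2 * v 2 := hv
        have hw' : w 1 = 2 * w 2 := hw
        show v 1 + w 1 = 2 * (v 2 + w 2)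
        linarith
      zero_mem' := by
        show (0 : ℚ) = 2 * 0
        ring
      smul_mem' := by
        intro c v hv
        have hv' : v 1 = 2 * v 2 := hv
        show c * v 1 = 2 * (c * v 2)
        rw [hv']; ring }
  have hle : ⨆ μ, mS.eigenspace μ ≤ P := by
    refine iSup_le fun μ => ?_
    intro v hv
    rw [Module.End.mem_eigenspace_iff, mS_apply] at hv
    have h1 : -16 * v 1 + 20 * v 2 = μ * v 1 := congrFun hv 1
    have h2 : -5 * v 1 + 4 * v 2 = μ * v 2 := congrFun hv 2
    show v 1 = 2 * v 2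
    have h3 : (μ + 6) ^ 2 * v 2 = 0 := by linear_combination 5 * h1 - (μ + 16) * h2
    rcases mul_eq_zero.1 h3 with h4 | h4
    · have h5 : μ = -6 := by
        have := pow_eq_zero_iff (two_ne_zero) |>.1 h4
        linarith
      rw [h5] at h1
      linarith
    · rw [h4] at h2 ⊢
      linarith
  rw [h, top_le_iff] at hle
  have h1 : (![0, 1, 0, 0] : Fin 4 → ℚ) ∈ P := by rw [hle]; trivial
  have h2 : (![0, 1, 0, 0] : Fin 4 → ℚ) 1 = 2 * (![0, 1, 0, 0] : Fin 4 → ℚ) 2 := h1
  simp at h2

/-- There are a tridiagonal pair on a space of dimension 4 over the rationals (with `d = 2`) and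
an admissible map for it that is not diagonalizable. -/
theorem result : ∃ (A B S : Module.End ℚ (Fin 4 → ℚ)) (θ θs : Fin (2 + 1) → ℚ),
    IsTDPair A B 2 θ θs ∧ Admissible A B 2 θ θs S ∧ ⨆ μ, S.eigenspace μ ≠ ⊤ :=
  ⟨mA, mB, mS, th, ths, ⟨sideA, sideB, irr⟩, adm, not_diag⟩

end Pool.Agent.Results.MP_6ebba1_al.NotDiagonalizable
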